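import Mathlib
import Pool.Agent.H65.AP.Targets

/-!
# Insulating cracks, scale invariant a priori bound (MP_0ee698_an): targets

Rank three near small cracks: blow up, harmonic polynomials, Newton kernel. Modules: one `Prop` `T_XX` per module.
-/

open MeasureTheory Set Filter Topology Metric
open scoped ENNReal NNReal ContDiff RealInnerProductSpace

namespace Pool.Agent.H70.APS

open Pool.Agent.H94.IC Pool.Agent.H94.AC Pool.Agent.H92.CK Pool.Agent.H65.AP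

/-! ## Harmonic polynomials and moment fields -/

/-- cross product -/
noncomputable def cr (a b : E) : E := !₂[a 1 * b 2 - a 2 * b 1, a 2 * b 0 - a 0 * b 2, a 0 * b 1 - a 1 * b 0]

/-- `p` is a polynomial of degree at most `D` on every line -/
def PLn (D : ℕ) (p : E → ℝ) : Prop :=
  ∀ y w : E, ∃ P : Polynomial ℝ, P.natDegree ≤ D ∧ ∀ t : ℝ, p (y + t • w) = P.eval t

/-- harmonic polynomials of degree at most `D` -/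
structure HP (D : ℕ) (p : E → ℝ) : Prop where
  pl : PLn D p
  harm : Harm univ p

/-- orthonormal pairs -/
structure ON (a b : E) : Prop where
  na : ‖a‖ = 1
  nb : ‖b‖ = 1
  ab : ⟪a, b⟫ = 0

/-- the linear form of the null vector `a + i b` -/
noncomputable def cz (a b y : E) : ℂ := (⟪a, y⟫ : ℂ) + (⟪b, y⟫ : ℂ) * Complex.I

/-- powers of linear forms of null vectors -/
noncomputable def bk (a b : E) (c : ℂ) (k : ℕ) (y : E) : ℝ := (c * cz a b y ^ k).re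

/-- the moment field -/
noncomputable def MF (κ q : E → ℝ) (w y : E) : E :=
  ⟪gr κ y, w⟫ • gr q y - ⟪gr κ y, gr q y⟫ • w - ⟪gr q y, w⟫ • gr κ y

/-- cutoff functions: zero in the ball of radius `R`, one off the ball of radius `2 R` -/
structure Kap (R : ℝ) (κ : E → ℝ) : Prop where
  sm : ContDiff ℝ ∞ κ
  zero : ∀ y, ‖y‖ ≤ R → κ y = 0
  one : ∀ y, 2 * R ≤ ‖y‖ → κ y = 1

/-- cutoff functions exist -/
def T_KAP : Prop := ∀ R : ℝ, 0 < R → ∃ κ : E → ℝ, Kap R κ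

/-- the harmonic polynomials of degree at most `D` form a finite dimensional space -/
def T_HPF : Prop := ∀ D : ℕ, ∃ (m : ℕ) (b : Fin m → E → ℝ), (∀ i, HP D (b i)) ∧
  ∀ p, HP D p → ∃ c : Fin m → ℝ, ∀ x, p x = ∑ i, c i * b i x

/-- affine invariance -/
def T_HPA : Prop :=
  (∀ (D : ℕ) (p : E → ℝ) (a : E) (ε : ℝ), HP D p → 0 < ε → HP D (fun x => p (ε⁻¹ • (x - a)))) ∧
  (∀ (D : ℕ) (p : E → ℝ) (c : ℝ), HP D p → HP D (fun x => c * p x)) ∧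
  (∀ (D D' : ℕ) (p : E → ℝ), D ≤ D' → HP D p → HP D' p) ∧ ∀ k : Fin 3, HP 1 (fun x => x k)

/-- the powers of null forms and their derivatives are harmonic polynomials -/
def T_BKD : Prop := ∀ (a b : E) (c : ℂ) (k : ℕ), ON a b → HP k (bk a b c k) ∧
  ∀ w : E, HP k (fun y => ⟪gr (bk a b c k) y, w⟫)

/-- the basic identity -/
def T_MFI : Prop := ∀ (κ q : E → ℝ) (O : Set E) (w y : E), ContDiff ℝ ∞ κ → IsOpen O → ContDiffOn ℝ ∞ q O → y ∈ O →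
  curl (fun z => κ z • cr (gr q z) w) y - gr (fun z => κ z * ⟪gr q z, w⟫) y
    = MF κ q w y - (κ y * ∑ j : Fin 3, pd j (pd j q) y) • w

/-! ## Projections and blow up -/

/-- projection on the gradients -/
def T_PRS : Prop := ∀ (Ω S : Set E) (σ : Measure E) (ν : E → E) (ρ : ℝ) (x v : E), Dom Ω → IsSurf Ω σ ν →
  IsCompact S → S ⊆ Ω → volume S = 0 → 0 < ρ → closedBall x ρ ⊆ Ω \ S →
  ∃ P : E → E, MemLp P 2 (volume.restrict Ω) ∧ ∫ y in Ω, ‖P y‖ ^ 2 ≤ (volume (ball x ρ)).toReal * ‖v‖ ^ 2 ∧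
    (∀ φ : E → ℝ, ContDiff ℝ ∞ φ → ∫ y in Ω, ⟪P y, gr φ y⟫ = ∫ y in ball x ρ, ⟪v, gr φ y⟫) ∧
    (∀ B : E → E, ContDiff ℝ ∞ B → HasCompactSupport B → tsupport B ⊆ Ω \ S → ∫ y in Ω, ⟪P y, curl B y⟫ = 0) ∧
    ∀ (A : E → E) (h τ : E → ℝ), ContDiff ℝ ∞ A → HasCompactSupport A → tsupport A ⊆ Sᶜ → Harm (Ω \ S) h →
      Sol Ω S σ ν (fun y => ⟪curl A y, ν y⟫) h (gr h) τ → ⟪gr h x, v⟫ = 0 → ∫ y in Ω, ⟪P y, curl A y⟫ = 0

/-- linear combinations of solutions -/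
def T_LNC : Prop := ∀ (Ω S : Set E) (σ : Measure E) (ν : E → E) (m : ℕ) (ψ h τ : Fin m → E → ℝ) (c : Fin m → ℝ)
  (ψ0 : E → ℝ), Dom Ω → IsSurf Ω σ ν → IsCompact S → S ⊆ Ω → volume S = 0 → (∀ i, MemLp (ψ i) 2 σ) →
  (∀ i, Harm (Ω \ S) (h i)) → (∀ i, Sol Ω S σ ν (ψ i) (h i) (gr (h i)) (τ i)) →
  (∀ x ∈ frontier Ω, ψ0 x = ∑ i, c i * ψ i x) →
  Harm (Ω \ S) (fun x => ∑ i, c i * h i x) ∧
  Sol Ω S σ ν ψ0 (fun x => ∑ i, c i * h i x) (gr fun x => ∑ i, c i * h i x) (fun x => ∑ i, c i * τ i x) ∧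
  ∀ x ∈ Ω \ S, gr (fun x => ∑ i, c i * h i x) x = ∑ i, c i • gr (h i) x

/-- the profiles of harmonic functions -/
def T_PRP : Prop := ∀ (Ω : Set E) (σ : Measure E) (ν : E → E) (p : E → ℝ), Dom Ω → IsSurf Ω σ ν → Harm univ p →
  IsProfile σ (fun x => ⟪gr p x, ν x⟫)

/-- the moment identity for the projected field -/
def T_SMU : Prop := ∀ (Ω S : Set E) (σ : Measure E) (ν : E → E) (ρ R ε : ℝ) (a x v : E) (P : E → E) (D m : ℕ)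
  (b h τ : Fin m → E → ℝ) (κ : E → ℝ), Dom Ω → IsSurf Ω σ ν → IsCompact S → S ⊆ Ω → volume S = 0 → 0 < ρ →
  closedBall x ρ ⊆ Ω \ S → 0 < ε → 0 < R → Kap R κ → S ⊆ ball a (R * ε) → closedBall x ρ ⊆ ball a (R * ε) →
  closedBall a (2 * R * ε) ⊆ Ω → (∀ i, HP D (b i)) → (∀ p, HP D p → ∃ c : Fin m → ℝ, ∀ y, p y = ∑ i, c i * b i y) →
  (∀ i, Harm (Ω \ S) (h i)) → (∀ i, Sol Ω S σ ν (fun y => ⟪gr (b i) y, ν y⟫) (h i) (gr (h i)) (τ i)) →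
  (∀ i, ⟪gr (h i) x, v⟫ = 0) → MemLp P 2 (volume.restrict Ω) →
  (∀ φ : E → ℝ, ContDiff ℝ ∞ φ → ∫ y in Ω, ⟪P y, gr φ y⟫ = ∫ y in ball x ρ, ⟪v, gr φ y⟫) →
  (∀ (A : E → E) (h τ : E → ℝ), ContDiff ℝ ∞ A → HasCompactSupport A → tsupport A ⊆ Sᶜ → Harm (Ω \ S) h →
    Sol Ω S σ ν (fun y => ⟪curl A y, ν y⟫) h (gr h) τ → ⟪gr h x, v⟫ = 0 → ∫ y in Ω, ⟪P y, curl A y⟫ = 0) →
  ∀ (q : E → ℝ) (w : E), Harm univ q → HP D (fun y => ⟪gr q y, w⟫) →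
    ∫ y in Ω, ⟪P y, MF (fun z => κ (ε⁻¹ • (z - a))) q w y⟫ = 0

/-- the properties of the rescaled field: `K` is the rescaled crack, `δ` and `y0` the radius and the centre of the
ball, `L` the size of the part of the space on which the identities hold -/
structure Blow (D : ℕ) (κ : E → ℝ) (K : Set E) (δ L : ℝ) (y0 v : E) (Q : E → E) : Prop where
  mem : MemLp Q 2 volume
  norm : ∫ y, ‖Q y‖ ^ 2 ≤ (volume (ball y0 δ)).toReal * ‖v‖ ^ 2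
  div : ∀ φ : E → ℝ, ContDiff ℝ ∞ φ → HasCompactSupport φ → ∫ y, ⟪Q y, gr φ y⟫ = ∫ y in ball y0 δ, ⟪v, gr φ y⟫
  crl : ∀ B : E → E, ContDiff ℝ ∞ B → HasCompactSupport B → tsupport B ⊆ ball 0 L \ K → ∫ y, ⟪Q y, curl B y⟫ = 0
  mom : ∀ (a b : E) (c : ℂ) (k : ℕ) (w : E), ON a b → k ≤ D → ∫ y, ⟪Q y, MF κ (bk a b c k) w y⟫ = 0

/-- the rescaled field -/
noncomputable def rs (Ω : Set E) (a : E) (ε : ℝ) (P : E → E) (y : E) : E := Ω.indicator P (a + ε • y)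

/-- the rescaled set -/
def rsS (S : Set E) (a : E) (ε : ℝ) : Set E := (fun y => ε⁻¹ • (y - a)) '' S

/-- rescaling -/
def T_RSC : Prop := ∀ (Ω S : Set E) (a x v : E) (ε δ L : ℝ) (P : E → E) (D : ℕ) (κ : E → ℝ), IsOpen Ω → 0 < ε →
  0 < δ → ContDiff ℝ ∞ κ → MemLp P 2 (volume.restrict Ω) →
  ∫ y in Ω, ‖P y‖ ^ 2 ≤ (volume (ball x (δ * ε))).toReal * ‖v‖ ^ 2 →
  (∀ φ : E → ℝ, ContDiff ℝ ∞ φ → ∫ y in Ω, ⟪P y, gr φ y⟫ = ∫ y in ball x (δ * ε), ⟪v, gr φ y⟫) →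
  (∀ B : E → E, ContDiff ℝ ∞ B → HasCompactSupport B → tsupport B ⊆ Ω \ S → ∫ y in Ω, ⟪P y, curl B y⟫ = 0) →
  ball a (L * ε) ⊆ Ω →
  (∀ (a' b' : E) (c : ℂ) (k : ℕ) (w : E), ON a' b' → k ≤ D →
    ∫ y in Ω, ⟪P y, MF (fun z => κ (ε⁻¹ • (z - a))) (fun z => bk a' b' c k (ε⁻¹ • (z - a))) w y⟫ = 0) →
  Blow D κ (rsS S a ε) δ L (ε⁻¹ • (x - a)) v (rs Ω a ε P)

/-- rescaling of distances and components -/
def T_RSD : Prop := ∀ (S : Set E) (a x : E) (ε c : ℝ), 0 < ε → S.Nonempty →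
  infDist (ε⁻¹ • (x - a)) (rsS S a ε) = ε⁻¹ * infDist x S ∧
  ∀ z ∈ connectedComponentIn {y | c * ε < infDist y S} x,
    ε⁻¹ • (z - a) ∈ connectedComponentIn {y | c < infDist y (rsS S a ε)} (ε⁻¹ • (x - a))

/-! ## The limit -/

/-- the limit field -/
structure Lim (κ : E → ℝ) (W : Set E) (δ : ℝ) (y0 v : E) (Q : E → E) : Prop where
  mem : MemLp Q 2 volume
  div : ∀ φ : E → ℝ, ContDiff ℝ ∞ φ → HasCompactSupport φ → ∫ y, ⟪Q y, gr φ y⟫ = ∫ y in ball y0 δ, ⟪v, gr φ y⟫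
  crl : ∀ B : E → E, ContDiff ℝ ∞ B → HasCompactSupport B → tsupport B ⊆ W ∪ (closedBall 0 1)ᶜ →
    ∫ y, ⟪Q y, curl B y⟫ = 0
  mom : ∀ (a b : E) (c : ℂ) (k : ℕ) (w : E), ON a b → ∫ y, ⟪Q y, MF κ (bk a b c k) w y⟫ = 0

/-- the limits of the rescaled fields -/
def T_LMB : Prop := ∀ (U : Ultrafilter ℕ) (D : ℕ → ℕ) (L : ℕ → ℝ) (κ : E → ℝ) (R δ : ℝ) (K : ℕ → Set E) (y v : ℕ → E)
  (Q : ℕ → E → E) (y0 v0 : E) (W : Set E), Kap R κ → 0 < R → 0 < δ → Tendsto D U atTop → Tendsto L U atTop →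
  (∀ n, K n ⊆ closedBall 0 1) → (∀ n, ‖v n‖ = 1) → (∀ n, Blow (D n) κ (K n) δ (L n) (y n) (v n) (Q n)) →
  Tendsto y U (𝓝 y0) → Tendsto v U (𝓝 v0) → (∀ᶠ n in (U : Filter ℕ), Disjoint W (K n)) →
  ∃ Q0 : E → E, Lim κ W δ y0 v0 Q0

/-- Whittaker's formula for the gradient of the Newton kernel -/
def T_WHT : Prop := ∀ z : E, z ≠ 0 → ∃ (a : E) (b : ℝ → E), Continuous b ∧ (∀ t, ON a (b t)) ∧
  ∀ y : E, 4 * ‖y‖ < ‖z‖ → gr (fun y' => ‖z - y'‖⁻¹) y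
    = (2 * Real.pi)⁻¹ • ∫ t in (0 : ℝ)..(2 * Real.pi), gr (fun y' => (((‖z‖ : ℂ) - cz a (b t) y')⁻¹).re) y

/-- vanishing moments for the Newton kernel -/
def T_NZM : Prop := ∀ (κ : E → ℝ) (R : ℝ) (Q : E → E) (z w : E), 0 < R → Kap R κ → MemLp Q 2 volume →
  (∀ (a b : E) (c : ℂ) (k : ℕ) (w : E), ON a b → ∫ y, ⟪Q y, MF κ (bk a b c k) w y⟫ = 0) → 8 * R < ‖z‖ →
  ∫ y, ⟪Q y, MF κ (fun y' => ‖z - y'‖⁻¹) w y⟫ = 0

/-- Newton potentials -/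
noncomputable def npt (θ : E → ℝ) (y : E) : ℝ := ∫ z, θ z * ‖z - y‖⁻¹

/-- properties of Newton potentials -/
def T_NPT : Prop := ∀ θ : E → ℝ, ContDiff ℝ ∞ θ → HasCompactSupport θ → ContDiff ℝ ∞ (npt θ) ∧
  (∀ y, ∑ j : Fin 3, pd j (pd j (npt θ)) y = -(4 * Real.pi) * θ y) ∧
  (∀ y, y ∉ tsupport θ → gr (npt θ) y = ∫ z, θ z • gr (fun y' => ‖z - y'‖⁻¹) y) ∧
  ∃ C : ℝ, ∀ y, ‖gr (npt θ) y‖ ≤ C / (1 + ‖y‖) ^ 2

/-- the limit field vanishes far out (weak form) -/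
def T_FIN : Prop := ∀ (κ : E → ℝ) (R δ : ℝ) (W : Set E) (y0 v : E) (Q : E → E), 2 ≤ R → Kap R κ → 0 < δ →
  ball y0 δ ⊆ ball 0 R → Lim κ W δ y0 v Q → ∀ θ : E → ℝ, ContDiff ℝ ∞ θ → HasCompactSupport θ →
  (∀ y ∈ tsupport θ, 8 * R < ‖y‖) → ∀ w : E, ∫ y, θ y * ⟪Q y, w⟫ = 0

/-- there are no blow ups with many vanishing moments -/
def T_NEA : Prop := ∀ (c M : ℝ) (κ : E → ℝ), 0 < c → 1 ≤ M → Kap (M + 3) κ → ∃ (D : ℕ) (L : ℝ), 0 < L ∧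
  ∀ (K : Set E) (y0 v : E) (Q : E → E), IsCompact K → K.Nonempty → K ⊆ closedBall 0 1 → c < infDist y0 K →
    infDist y0 K ≤ M → (connectedComponentIn {y | c < infDist y K} y0 ∩ {y | L < ‖y‖}).Nonempty → ‖v‖ = 1 →
    ¬ Blow D κ K (min c 1 / 16) L y0 v Q

/-- rank three far from a small crack -/
def T_FAR : Prop := ∃ M : ℝ, 1 ≤ M ∧ ∀ (Ω S : Set E) (σ : Measure E) (ν : E → E) (a x v : E) (ε : ℝ)
  (h τ : Fin 3 → E → ℝ), Dom Ω → IsSurf Ω σ ν → IsCompact S → S ⊆ closedBall a ε → 0 < ε →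
  closedBall a (4 * ε) ⊆ Ω → volume S = 0 → ball x (M * ε) ⊆ Ω \ S → (∀ k, Harm (Ω \ S) (h k)) →
  (∀ k, Sol Ω S σ ν (fun y => ν y k) (h k) (gr (h k)) (τ k)) → ‖v‖ = 1 → ∃ k, ⟪gr (h k) x, v⟫ ≠ 0

/-! ## Rank three -/

/-- rank three for small cracks -/
def T_SMS : Prop := ∀ (Ω : Set E) (σ : Measure E) (ν : E → E) (c d : ℝ), Dom Ω → IsSurf Ω σ ν → 0 < c → 0 < d →
  ∃ (ε0 : ℝ) (N : ℕ) (ψ : Fin N → E → ℝ), 0 < ε0 ∧ (∀ i, IsProfile σ (ψ i)) ∧ ∀ (S : Set E) (h τ : Fin N → E → ℝ),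
    IsCompact S → S ⊆ Ω → volume S = 0 → 0 < diam S → diam S < ε0 → (∀ y ∈ S, d ≤ infDist y (frontier Ω)) →
    (∀ i, Harm (Ω \ S) (h i)) → (∀ i, Sol Ω S σ ν (ψ i) (h i) (gr (h i)) (τ i)) →
    ∀ x ∈ Ω, c * diam S < infDist x S → d ≤ infDist x (frontier Ω) →
      (connectedComponentIn {y | c * diam S < infDist y S} x ∩ (closure Ω)ᶜ).Nonempty →
      ¬ ∃ v : E, ‖v‖ = 1 ∧ ∀ i, ⟪gr (h i) x, v⟫ = 0

/-- **rank three, scale invariant**: finitely many profiles for all cracks of all sizes -/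
def T_RKS : Prop := ∀ (Ω : Set E) (σ : Measure E) (ν : E → E) (c d : ℝ), Dom Ω → IsSurf Ω σ ν → 0 < c → 0 < d →
  ∃ (N : ℕ) (ψ : Fin N → E → ℝ), (∀ i, IsProfile σ (ψ i)) ∧ ∀ (S : Set E) (h τ : Fin N → E → ℝ),
    IsCompact S → S ⊆ Ω → volume S = 0 → 0 < diam S → (∀ y ∈ S, d ≤ infDist y (frontier Ω)) →
    (∀ i, Harm (Ω \ S) (h i)) → (∀ i, Sol Ω S σ ν (ψ i) (h i) (gr (h i)) (τ i)) →
    ∀ x ∈ Ω, c * diam S < infDist x S → d ≤ infDist x (frontier Ω) →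
      (connectedComponentIn {y | c * diam S < infDist y S} x ∩ (closure Ω)ᶜ).Nonempty →
      ¬ ∃ v : E, ‖v‖ = 1 ∧ ∀ i, ⟪gr (h i) x, v⟫ = 0

end Pool.Agent.H70.APS
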