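import Mathlib
import Pool.Agent.H70.APS.Targets

/-!
# Affine invariance of harmonic polynomials
-/

open MeasureTheory Set Filter Topology Metric
open scoped ENNReal NNReal ContDiff RealInnerProductSpace

namespace Pool.Agent.H70.APS

open Pool.Agent.H94.IC Pool.Agent.H94.AC Pool.Agent.H92.CK Pool.Agent.H65.AP

theorem hpa_pd_comp (f : E → ℝ) (a : E) (ε : ℝ) (k : Fin 3) (hf : Differentiable ℝ f) :
    pd k (fun x => f (ε⁻¹ • (x - a))) = fun x => ε⁻¹ * pd k f (ε⁻¹ • (x - a)) := by
  funext x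
  have h0 : HasFDerivAt (fun z : E => ε⁻¹ • (z - a)) (ε⁻¹ • ContinuousLinearMap.id ℝ E) x :=
    ((hasFDerivAt_id x).sub_const a).const_smul ε⁻¹
  have h1 := (hf (ε⁻¹ • (x - a))).hasFDerivAt.comp x h0
  have h2 : (f ∘ fun z : E => ε⁻¹ • (z - a)) = fun z => f (ε⁻¹ • (z - a)) := rfl
  rw [h2] at h1
  show fderiv ℝ (fun z => f (ε⁻¹ • (z - a))) x (ev k) = _
  rw [h1.fderiv]
  show fderiv ℝ f (ε⁻¹ • (x - a)) (ε⁻¹ • (ev k)) = _
  rw [map_smul]
  rfl

theorem hpa_smooth {p : E → ℝ} (h : Harm univ p) : ContDiff ℝ ∞ p := contDiffOn_univ.1 h.1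

theorem hpa_pd_smooth {p : E → ℝ} (h : ContDiff ℝ ∞ p) (k : Fin 3) : ContDiff ℝ ∞ (pd k p) := by
  have h1 : ContDiff ℝ ∞ (fderiv ℝ p) := h.fderiv_right (by simp)
  exact h1.clm_apply contDiff_const

theorem pf_HPA : T_HPA := by
  refine ⟨?_, ?_, ?_, ?_⟩
  · intro D p a ε hp hε
    have hs := hpa_smooth hp.harm
    refine ⟨fun y w => ?_, contDiffOn_univ.2 ?_, fun x _ => ?_⟩
    · obtain ⟨P, hP, hPe⟩ := hp.pl (ε⁻¹ • (y - a)) (ε⁻¹ • w)
      refine ⟨P, hP, fun t => ?_⟩
      rw [← hPe t]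
      congr 1
      rw [smul_comm t ε⁻¹ w, ← smul_add]
      congr 1
      abel
    · exact hs.comp (by fun_prop)
    · have h1 : ∀ k : Fin 3, pd k (pd k fun x => p (ε⁻¹ • (x - a)))
          = fun x => ε⁻¹ * (ε⁻¹ * pd k (pd k p) (ε⁻¹ • (x - a))) := by
        intro k
        rw [hpa_pd_comp p a ε k (hs.differentiable (by simp))]
        have h2 : Differentiable ℝ fun x => pd k p (ε⁻¹ • (x - a)) := by
          have h3 := (hpa_pd_smooth hs k).differentiable (by simp)
          exact h3.comp (by fun_prop)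
        funext x
        have h4 : pd k (fun x => ε⁻¹ * pd k p (ε⁻¹ • (x - a))) x
            = ε⁻¹ * pd k (fun x => pd k p (ε⁻¹ • (x - a))) x := by
          show fderiv ℝ (fun x => ε⁻¹ * pd k p (ε⁻¹ • (x - a))) x (ev k) = _
          rw [fderiv_const_mul (h2 x)]
          rfl
        rw [h4, hpa_pd_comp (pd k p) a ε k ((hpa_pd_smooth hs k).differentiable (by simp))]
      simp only [h1]
      rw [← Finset.mul_sum, ← Finset.mul_sum, hp.harm.2 _ (mem_univ _), mul_zero, mul_zero]
  · intro D p c hp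
    have hs := hpa_smooth hp.harm
    refine ⟨fun y w => ?_, contDiffOn_univ.2 ?_, fun x _ => ?_⟩
    · obtain ⟨P, hP, hPe⟩ := hp.pl y w
      refine ⟨Polynomial.C c * P, (Polynomial.natDegree_C_mul_le c P).trans hP, fun t => ?_⟩
      rw [Polynomial.eval_mul, Polynomial.eval_C, ← hPe t]
    · exact contDiff_const.mul hs
    · have h1 : ∀ f : E → ℝ, Differentiable ℝ f → ∀ k : Fin 3, pd k (fun x => c * f x)
          = fun x => c * pd k f x := by
        intro f hf k
        funext x
        show fderiv ℝ (fun x => c * f x) x (ev k) = _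
        rw [fderiv_const_mul (hf x)]
        rfl
      have h2 : ∀ k : Fin 3, pd k (pd k fun x => c * p x) x = c * pd k (pd k p) x := by
        intro k
        rw [h1 p (hs.differentiable (by simp)) k,
          h1 (pd k p) ((hpa_pd_smooth hs k).differentiable (by simp)) k]
      simp only [h2]
      rw [← Finset.mul_sum, hp.harm.2 x (mem_univ _), mul_zero]
  · intro D D' p hD hp
    refine ⟨fun y w => ?_, hp.harm⟩
    obtain ⟨P, hP, hPe⟩ := hp.pl y w
    exact ⟨P, hP.trans hD, hPe⟩
  · intro k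
    refine ⟨fun y w => ?_, contDiffOn_univ.2 ?_, fun x _ => ?_⟩
    · refine ⟨Polynomial.C (w k) * Polynomial.X + Polynomial.C (y k), Polynomial.natDegree_linear_le, fun t => ?_⟩
      show y k + t * w k = _
      simp only [Polynomial.eval_add, Polynomial.eval_mul, Polynomial.eval_C, Polynomial.eval_X]
      ring
    · exact (EuclideanSpace.proj k : E →L[ℝ] ℝ).contDiff
    · have h1 : ∀ j : Fin 3, pd j (fun x : E => x k) = fun _ => (ev j : E) k := by
        intro j
        funext x
        have h4 : HasFDerivAt (fun z : E => z k) (EuclideanSpace.proj k : E →L[ℝ] ℝ) x :=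
          (EuclideanSpace.proj k : E →L[ℝ] ℝ).hasFDerivAt
        show fderiv ℝ (fun z : E => z k) x (ev j) = _
        rw [h4.fderiv]
        rfl
      refine Finset.sum_eq_zero fun j _ => ?_
      rw [h1 j]
      show fderiv ℝ (fun _ : E => (ev j : E) k) x (ev j) = 0
      rw [fderiv_fun_const]
      rfl

end Pool.Agent.H70.APS
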