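import Mathlib
import Pool.Agent.H70.APS.Targets
import Pool.Agent.H70.APS.HPA

/-!
# Powers of null forms are harmonic polynomials
-/

open MeasureTheory Set Filter Topology Metric
open scoped ENNReal NNReal ContDiff RealInnerProductSpace

namespace Pool.Agent.H70.APS

open Pool.Agent.H94.IC Pool.Agent.H94.AC Pool.Agent.H92.CK Pool.Agent.H65.AP

/-- the form as a continuous linear map -/
noncomputable def czL (a b : E) : E →L[ℝ] ℂ :=
  Complex.ofRealCLM.comp (innerSL ℝ a) + Complex.I • Complex.ofRealCLM.comp (innerSL ℝ b)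

theorem czL_apply (a b y : E) : czL a b y = cz a b y := by
  show ((⟪a, y⟫ : ℝ) : ℂ) + Complex.I • ((⟪b, y⟫ : ℝ) : ℂ) = _
  rw [smul_eq_mul, mul_comm]
  rfl

theorem bk_smooth (a b : E) (c : ℂ) (k : ℕ) : ContDiff ℝ ∞ (bk a b c k) := by
  have h1 : bk a b c k = fun y => Complex.reCLM (c * czL a b y ^ k) := by
    funext y
    rw [czL_apply]
    rfl
  rw [h1]
  exact Complex.reCLM.contDiff.comp (contDiff_const.mul ((czL a b).contDiff.pow k))

theorem bk_fderiv (a b : E) (c : ℂ) (k : ℕ) (y w : E) :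
    fderiv ℝ (bk a b c k) y w = bk a b (c * k * cz a b w) (k - 1) y := by
  have h1 : bk a b c k = Complex.reCLM ∘ ((fun t : ℂ => c * t ^ k) ∘ czL a b) := by
    funext y
    show (c * cz a b y ^ k).re = (c * czL a b y ^ k).re
    rw [czL_apply]
  have h2 : HasFDerivAt (fun t : ℂ => c * t ^ k) ((ContinuousLinearMap.toSpanSingleton ℂ
      (c * ((k : ℂ) * czL a b y ^ (k - 1)))).restrictScalars ℝ) (czL a b y) :=
    ((hasDerivAt_pow k (czL a b y)).const_mul c).hasFDerivAt.restrictScalars ℝ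
  have h3 := h2.comp y (czL a b).hasFDerivAt
  have h4 := (Complex.reCLM.hasFDerivAt (x := ((fun t : ℂ => c * t ^ k) ∘ czL a b) y)).comp y h3
  rw [h1, h4.fderiv]
  show (czL a b w • (c * ((k : ℂ) * czL a b y ^ (k - 1)))).re = (c * k * cz a b w * cz a b y ^ (k - 1)).re
  rw [smul_eq_mul, czL_apply, czL_apply]
  congr 1
  ring

theorem bk_pd (a b : E) (c : ℂ) (k : ℕ) (j : Fin 3) :
    pd j (bk a b c k) = bk a b (c * k * cz a b (ev j)) (k - 1) := by
  funext y
  exact bk_fderiv a b c k y (ev j)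

theorem bk_pln (a b : E) (c : ℂ) (k : ℕ) : PLn k (bk a b c k) := by
  intro y w
  let P : Polynomial ℂ := Polynomial.C c * (Polynomial.C (cz a b w) * Polynomial.X + Polynomial.C (cz a b y)) ^ k
  have hP : P.natDegree ≤ k := by
    refine (Polynomial.natDegree_C_mul_le _ _).trans ((Polynomial.natDegree_pow_le).trans ?_)
    have := Polynomial.natDegree_linear_le (a := cz a b w) (b := cz a b y)
    calc k * _ ≤ k * 1 := Nat.mul_le_mul_left k this
      _ = k := mul_one k
  refine ⟨∑ i ∈ Finset.range (k + 1), Polynomial.C (P.coeff i).re * Polynomial.X ^ i, ?_, fun t => ?_⟩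
  · refine Polynomial.natDegree_sum_le_of_forall_le _ _ fun i hi => ?_
    refine (Polynomial.natDegree_C_mul_X_pow_le _ _).trans ?_
    exact Nat.lt_succ_iff.1 (Finset.mem_range.1 hi)
  · have h1 : bk a b c k (y + t • w) = (P.eval (t : ℂ)).re := by
      have h2 : cz a b (y + t • w) = cz a b w * (t : ℂ) + cz a b y := by
        rw [← czL_apply, ← czL_apply, ← czL_apply, map_add, map_smul]
        rw [Complex.real_smul]
        ring
      show (c * cz a b (y + t • w) ^ k).re = _
      simp only [P, Polynomial.eval_mul, Polynomial.eval_C, Polynomial.eval_pow, Polynomial.eval_add,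
        Polynomial.eval_X, h2]
    rw [h1, Polynomial.eval_eq_sum_range' (Nat.lt_succ_of_le hP), Complex.re_sum, Polynomial.eval_finsetSum]
    refine Finset.sum_congr rfl fun i _ => ?_
    rw [Polynomial.eval_mul, Polynomial.eval_C, Polynomial.eval_pow, Polynomial.eval_X]
    rw [← Complex.ofReal_pow, Complex.re_mul_ofReal]

theorem cz_ev (a b : E) (j : Fin 3) : cz a b (ev j) = (a j : ℂ) + (b j : ℂ) * Complex.I := by
  have h1 : ∀ u : E, (⟪u, (ev j : E)⟫ : ℝ) = u j := by
    intro u
    simp [ev, EuclideanSpace.inner_single_right]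
  show ((⟪a, (ev j : E)⟫ : ℝ) : ℂ) + ((⟪b, (ev j : E)⟫ : ℝ) : ℂ) * Complex.I = _
  rw [h1, h1]

theorem cz_null {a b : E} (h : ON a b) : ∑ j : Fin 3, cz a b (ev j) * cz a b (ev j) = 0 := by
  have h1 : a 0 * a 0 + a 1 * a 1 + a 2 * a 2 = 1 := by
    have h2 := real_inner_self_eq_norm_sq a
    rw [h.na, PiLp.inner_apply, Fin.sum_univ_three] at h2
    simp only [RCLike.inner_apply, conj_trivial] at h2
    linarith
  have h3 : b 0 * b 0 + b 1 * b 1 + b 2 * b 2 = 1 := by
    have h2 := real_inner_self_eq_norm_sq b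
    rw [h.nb, PiLp.inner_apply, Fin.sum_univ_three] at h2
    simp only [RCLike.inner_apply, conj_trivial] at h2
    linarith
  have h4 : a 0 * b 0 + a 1 * b 1 + a 2 * b 2 = 0 := by
    have h2 := h.ab
    rw [PiLp.inner_apply, Fin.sum_univ_three] at h2
    simp only [RCLike.inner_apply, conj_trivial] at h2
    linarith
  rw [Fin.sum_univ_three]
  simp only [cz_ev]
  apply Complex.ext
  · simp
    linarith
  · simp
    linarith

theorem bk_harm {a b : E} (h : ON a b) (c : ℂ) (k : ℕ) : Harm univ (bk a b c k) := by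
  refine ⟨contDiffOn_univ.2 (bk_smooth a b c k), fun y _ => ?_⟩
  have h1 : ∀ j : Fin 3, pd j (pd j (bk a b c k)) y
      = (c * k * ((k - 1 : ℕ) : ℂ) * (cz a b (ev j) * cz a b (ev j)) * cz a b y ^ (k - 1 - 1)).re := by
    intro j
    rw [bk_pd, bk_pd]
    show (c * k * cz a b (ev j) * ((k - 1 : ℕ) : ℂ) * cz a b (ev j) * cz a b y ^ (k - 1 - 1)).re = _
    congr 1
    ring
  simp only [h1]
  rw [← Complex.re_sum, ← Finset.sum_mul, ← Finset.mul_sum, cz_null h, mul_zero, zero_mul, Complex.zero_re]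

theorem pf_BKD : T_BKD := by
  intro a b c k h
  refine ⟨⟨bk_pln a b c k, bk_harm h c k⟩, fun w => ?_⟩
  have h1 : (fun y => ⟪gr (bk a b c k) y, w⟫) = bk a b (c * k * cz a b w) (k - 1) := by
    funext y
    rw [← bk_fderiv a b c k y w]
    exact InnerProductSpace.toDual_symm_apply
  rw [h1]
  exact pf_HPA.2.2.1 (k - 1) k _ (Nat.sub_le k 1) ⟨bk_pln _ _ _ _, bk_harm h _ _⟩

end Pool.Agent.H70.APS
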