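import Mathlib
import Pool.Agent.H70.APS.Targets
import Pool.Agent.H70.APS.HPA

/-!
# The harmonic polynomials of degree at most `D` form a finite dimensional space
-/

open MeasureTheory Set Filter Topology Metric
open scoped ENNReal NNReal ContDiff RealInnerProductSpace

namespace Pool.Agent.H70.APS

open Pool.Agent.H94.IC Pool.Agent.H94.AC Pool.Agent.H92.CK Pool.Agent.H65.AP

theorem hpf_add {D : ℕ} {p q : E → ℝ} (hp : HP D p) (hq : HP D q) : HP D (fun x => p x + q x) := by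
  have hs := hpa_smooth hp.harm
  have ht := hpa_smooth hq.harm
  refine ⟨fun y w => ?_, contDiffOn_univ.2 (hs.add ht), fun x _ => ?_⟩
  · obtain ⟨P, hP, hPe⟩ := hp.pl y w
    obtain ⟨Q, hQ, hQe⟩ := hq.pl y w
    refine ⟨P + Q, (Polynomial.natDegree_add_le P Q).trans (max_le hP hQ), fun t => ?_⟩
    rw [Polynomial.eval_add, ← hPe t, ← hQe t]
  · have h1 : ∀ f g : E → ℝ, Differentiable ℝ f → Differentiable ℝ g → ∀ k : Fin 3,
        pd k (fun x => f x + g x) = fun x => pd k f x + pd k g x := by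
      intro f g hf hg k
      funext x
      show fderiv ℝ (fun x => f x + g x) x (ev k) = _
      rw [fderiv_fun_add (hf x) (hg x)]
      rfl
    have h2 : ∀ k : Fin 3, pd k (pd k fun x => p x + q x) x = pd k (pd k p) x + pd k (pd k q) x := by
      intro k
      rw [h1 p q (hs.differentiable (by simp)) (ht.differentiable (by simp)) k,
        h1 (pd k p) (pd k q) ((hpa_pd_smooth hs k).differentiable (by simp))
          ((hpa_pd_smooth ht k).differentiable (by simp)) k]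
    simp only [h2]
    rw [Finset.sum_add_distrib, hp.harm.2 x (mem_univ _), hq.harm.2 x (mem_univ _), add_zero]

theorem hpf_zero (D : ℕ) : HP D (fun _ => 0) := by
  refine ⟨fun y w => ⟨0, by simp, fun t => by simp⟩, contDiffOn_univ.2 contDiff_const, fun x _ => ?_⟩
  refine Finset.sum_eq_zero fun k _ => ?_
  have h1 : pd k (fun _ : E => (0 : ℝ)) = fun _ => 0 := by
    funext x
    show fderiv ℝ (fun _ : E => (0 : ℝ)) x (ev k) = 0
    rw [fderiv_fun_const]
    rfl
  rw [h1]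
  show fderiv ℝ (fun _ : E => (0 : ℝ)) x (ev k) = 0
  rw [fderiv_fun_const]
  rfl

/-- the space of harmonic polynomials -/
def hpS (D : ℕ) : Submodule ℝ (E → ℝ) where
  carrier := {p | HP D p}
  zero_mem' := hpf_zero D
  add_mem' := fun hp hq => hpf_add hp hq
  smul_mem' := fun c _ hp => pf_HPA.2.1 D _ c hp

/-- a polynomial on a line with many zeros vanishes -/
theorem hpf_line {D : ℕ} {p : E → ℝ} (hp : PLn D p) (y w : E)
    (h : ∀ i : ℕ, i ≤ D → p (y + (i : ℝ) • w) = 0) (t : ℝ) : p (y + t • w) = 0 := by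
  obtain ⟨P, hP, hPe⟩ := hp y w
  have h0 : P = 0 := by
    refine Polynomial.eq_zero_of_natDegree_lt_card_of_eval_eq_zero P (f := fun i : Fin (D + 1) => ((i : ℕ) : ℝ))
      ?_ ?_ ?_
    · intro i j hij
      have h1 : ((i : ℕ) : ℝ) = ((j : ℕ) : ℝ) := hij
      exact Fin.ext (by exact_mod_cast h1)
    · intro i
      rw [← hPe]
      exact h i (Nat.lt_succ_iff.1 i.2)
    · rw [Fintype.card_fin]
      exact Nat.lt_succ_of_le hP
  rw [hPe t, h0, Polynomial.eval_zero]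

/-- evaluation on the grid -/
noncomputable def hpEv (D : ℕ) : hpS D →ₗ[ℝ] (Fin (D + 1) × Fin (D + 1) × Fin (D + 1) → ℝ) where
  toFun p := fun q => (p : E → ℝ) (((q.1 : ℕ) : ℝ) • (ev 0 : E) + ((q.2.1 : ℕ) : ℝ) • (ev 1 : E)
    + ((q.2.2 : ℕ) : ℝ) • (ev 2 : E))
  map_add' := fun _ _ => rfl
  map_smul' := fun _ _ => rfl

theorem hpEv_inj (D : ℕ) : Function.Injective (hpEv D) := by
  rw [← LinearMap.ker_eq_bot, LinearMap.ker_eq_bot']
  rintro ⟨p, hp⟩ h
  have hpl : PLn D p := (show HP D p from hp).pl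
  have h0 : ∀ i j l : ℕ, i ≤ D → j ≤ D → l ≤ D →
      p ((i : ℝ) • (ev 0 : E) + (j : ℝ) • (ev 1 : E) + (l : ℝ) • (ev 2 : E)) = 0 := by
    intro i j l hi hj hl
    exact congrFun h (⟨i, Nat.lt_succ_of_le hi⟩, ⟨j, Nat.lt_succ_of_le hj⟩, ⟨l, Nat.lt_succ_of_le hl⟩)
  have h1 : ∀ i j : ℕ, i ≤ D → j ≤ D → ∀ t : ℝ,
      p ((i : ℝ) • (ev 0 : E) + (j : ℝ) • (ev 1 : E) + t • (ev 2 : E)) = 0 := fun i j hi hj t =>
    hpf_line hpl _ _ (fun l hl => h0 i j l hi hj hl) t
  have h2 : ∀ i : ℕ, i ≤ D → ∀ s t : ℝ,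
      p ((i : ℝ) • (ev 0 : E) + s • (ev 1 : E) + t • (ev 2 : E)) = 0 := by
    intro i hi s t
    have h3 := hpf_line hpl ((i : ℝ) • (ev 0 : E) + t • (ev 2 : E)) (ev 1) (fun l hl => by
      have h4 := h1 i l hi hl t
      rwa [add_right_comm] at h4) s
    rwa [add_right_comm] at h3
  have h3 : ∀ r s t : ℝ, p (r • (ev 0 : E) + s • (ev 1 : E) + t • (ev 2 : E)) = 0 := by
    intro r s t
    have h4 := hpf_line hpl (s • (ev 1 : E) + t • (ev 2 : E)) (ev 0) (fun l hl => by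
      have h5 := h2 l hl s t
      rwa [add_assoc, add_comm] at h5) r
    rwa [add_comm, ← add_assoc] at h4
  apply Subtype.ext
  funext x
  have h4 : x = x 0 • (ev 0 : E) + x 1 • (ev 1 : E) + x 2 • (ev 2 : E) := by
    ext k
    fin_cases k <;> simp [ev]
  show p x = 0
  rw [h4]
  exact h3 _ _ _

theorem pf_HPF : T_HPF := by
  intro D
  have hfin : FiniteDimensional ℝ (hpS D) := FiniteDimensional.of_injective (hpEv D) (hpEv_inj D)
  let B := Module.finBasis ℝ (hpS D)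
  refine ⟨Module.finrank ℝ (hpS D), fun i => (B i : E → ℝ), fun i => (B i).2, fun p hp => ?_⟩
  refine ⟨fun i => B.repr ⟨p, hp⟩ i, fun x => ?_⟩
  have h1 := B.sum_repr ⟨p, hp⟩
  have h2 := congrArg (fun q : hpS D => (q : E → ℝ) x) h1
  have h3 : ((∑ i, B.repr ⟨p, hp⟩ i • B i : hpS D) : E → ℝ) x = ∑ i, B.repr ⟨p, hp⟩ i * (B i : E → ℝ) x := by
    rw [Submodule.coe_sum, Finset.sum_apply]
    rfl
  rw [← h3]
  exact h2.symm

end Pool.Agent.H70.APS
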