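import Mathlib
import Pool.Agent.H70.APS.Targets

/-!
# Cutoff functions
-/

open MeasureTheory Set Filter Topology Metric
open scoped ENNReal NNReal ContDiff RealInnerProductSpace

namespace Pool.Agent.H70.APS

open Pool.Agent.H94.IC Pool.Agent.H94.AC Pool.Agent.H92.CK Pool.Agent.H65.AP

theorem pf_KAP : T_KAP := by
  intro R hR
  let φ : ContDiffBump (0 : E) := ⟨R, 2 * R, hR, by linarith⟩
  refine ⟨fun y => 1 - φ y, ⟨contDiff_const.sub φ.contDiff, fun y hy => ?_, fun y hy => ?_⟩⟩
  · rw [φ.one_of_mem_closedBall (by rw [mem_closedBall, dist_zero_right]; exact hy), sub_self]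
  · rw [φ.zero_of_le_dist (by rw [dist_zero_right]; exact hy), sub_zero]

end Pool.Agent.H70.APS
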