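import Mathlib
import Pool.Agent.H70.APS.Targets

/-!
# Linear combinations of solutions
-/

open MeasureTheory Set Filter Topology Metric
open scoped ENNReal NNReal ContDiff RealInnerProductSpace

namespace Pool.Agent.H70.APS

open Pool.Agent.H94.IC Pool.Agent.H94.AC Pool.Agent.H92.CK Pool.Agent.H65.AP

theorem lnc_int_inner {μ : Measure E} {f g : E → E} (hf : MemLp f 2 μ) (hg : MemLp g 2 μ) :
    Integrable (fun x => (⟪f x, g x⟫ : ℝ)) μ := by
  have h1 : Integrable (fun x => ‖f x‖ * ‖g x‖) μ := hf.norm.integrable_mul hg.norm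
  exact h1.mono' (hf.1.inner hg.1) (Eventually.of_forall fun x => norm_inner_le_norm _ _)

theorem lnc_congr {Ω S : Set E} {σ : Measure E} {ν : E → E} {u : E → ℝ} {F F' : E → E} {τ : E → ℝ}
    (h : HS1 Ω S σ ν u F τ) (hF : F' =ᵐ[volume.restrict Ω] F) : HS1 Ω S σ ν u F' τ := by
  refine ⟨h.u2, h.F2.ae_eq hF.symm, h.t2, fun X h1 h2 h3 => ?_⟩
  rw [← h.tr X h1 h2 h3]
  refine integral_congr_ae ?_
  filter_upwards [hF] with x hx
  rw [hx]

theorem lnc_zero (Ω S : Set E) (σ : Measure E) (ν : E → E) :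
    HS1 Ω S σ ν (fun _ => 0) (fun _ => 0) (fun _ => 0) := by
  refine ⟨MemLp.zero', MemLp.zero', MemLp.zero', fun X _ _ _ => ?_⟩
  simp

theorem pf_LNC (hHSM : T_HSM) : T_LNC := by
  intro Ω S σ ν m ψ h τ c ψ0 hΩ hσ hSc hSΩ hS0 hψ hh hsol hψ0
  obtain ⟨hadd, hsmul, -, -, -⟩ := hHSM Ω S σ ν hΩ.op hΩ.bdd hσ hSc hSΩ
  have hO : IsOpen (Ω \ S) := hΩ.op.sdiff hSc.isClosed
  have hat : ∀ i, ∀ x ∈ Ω \ S, ContDiffAt ℝ ∞ (h i) x := fun i x hx =>
    (hh i).1.contDiffAt (hO.mem_nhds hx)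
  -- the gradient
  have hgr : ∀ x ∈ Ω \ S, gr (fun x => ∑ i, c i * h i x) x = ∑ i, c i • gr (h i) x := by
    intro x hx
    have h1 : HasFDerivAt (fun y => ∑ i, c i * h i y) (∑ i, c i • fderiv ℝ (h i) x) x :=
      HasFDerivAt.fun_sum fun i _ => ((hat i x hx).differentiableAt (by simp)).hasFDerivAt.const_mul (c i)
    show (InnerProductSpace.toDual ℝ E).symm (fderiv ℝ (fun y => ∑ i, c i * h i y) x) = _
    rw [h1.fderiv, map_sum]
    refine Finset.sum_congr rfl fun i _ => ?_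
    rw [map_smulₛₗ]
    rfl
  have hae : (gr fun x => ∑ i, c i * h i x) =ᵐ[volume.restrict Ω] fun x => ∑ i, c i • gr (h i) x := by
    have h1 : ∀ᵐ x ∂(volume.restrict Ω), x ∉ S := by
      refine ae_restrict_of_ae ?_
      rw [ae_iff]
      simpa using hS0
    filter_upwards [ae_restrict_mem hΩ.op.measurableSet, h1] with x hx hxS
    exact hgr x ⟨hx, hxS⟩
  -- HS1
  have hsum : ∀ s : Finset (Fin m), HS1 Ω S σ ν (fun x => ∑ i ∈ s, c i * h i x)
      (fun x => ∑ i ∈ s, c i • gr (h i) x) (fun x => ∑ i ∈ s, c i * τ i x) := by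
    intro s
    induction s using Finset.induction_on with
    | empty => simpa using lnc_zero Ω S σ ν
    | insert i s hi ih =>
      have h1 := hadd _ _ _ _ _ _ (hsmul _ _ _ (c i) (hsol i).h) ih
      have e1 : (fun x => ∑ j ∈ insert i s, c j * h j x) = fun x => c i * h i x + ∑ j ∈ s, c j * h j x :=
        funext fun x => Finset.sum_insert hi
      have e2 : (fun x => ∑ j ∈ insert i s, c j • gr (h j) x)
          = fun x => c i • gr (h i) x + ∑ j ∈ s, c j • gr (h j) x :=
        funext fun x => Finset.sum_insert hi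
      have e3 : (fun x => ∑ j ∈ insert i s, c j * τ j x) = fun x => c i * τ i x + ∑ j ∈ s, c j * τ j x :=
        funext fun x => Finset.sum_insert hi
      rw [e1, e2, e3]
      exact h1
  have hHS : HS1 Ω S σ ν (fun x => ∑ i, c i * h i x) (gr fun x => ∑ i, c i * h i x)
      (fun x => ∑ i, c i * τ i x) := lnc_congr (hsum Finset.univ) hae
  have hpdc : ∀ (f : Fin m → E → ℝ) (x : E), (∀ i, DifferentiableAt ℝ (f i) x) → ∀ k : Fin 3,
      pd k (fun y => ∑ i, c i * f i y) x = ∑ i, c i * pd k (f i) x := by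
    intro f x hf k
    have h1 : HasFDerivAt (fun y => ∑ i, c i * f i y) (∑ i, c i • fderiv ℝ (f i) x) x :=
      HasFDerivAt.fun_sum fun i _ => (hf i).hasFDerivAt.const_mul (c i)
    show fderiv ℝ (fun y => ∑ i, c i * f i y) x (ev k) = _
    rw [h1.fderiv, ContinuousLinearMap.sum_apply]
    rfl
  refine ⟨⟨?_, fun x hx => ?_⟩, ⟨hHS, fun φ G κ' hφ => ?_⟩, hgr⟩
  · refine ContDiffOn.sum fun i _ => ?_
    exact contDiffOn_const.mul (hh i).1
  · have h2 : ∀ k : Fin 3, pd k (pd k fun y => ∑ i, c i * h i y) x = ∑ i, c i * pd k (pd k (h i)) x := by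
      intro k
      have h3 : pd k (fun y => ∑ i, c i * h i y) =ᶠ[𝓝 x] fun y => ∑ i, c i * pd k (h i) y := by
        filter_upwards [hO.mem_nhds hx] with y hy
        exact hpdc h y (fun i => (hat i y hy).differentiableAt (by simp)) k
      have h4 : pd k (pd k fun y => ∑ i, c i * h i y) x = pd k (fun y => ∑ i, c i * pd k (h i) y) x := by
        show fderiv ℝ _ x (ev k) = fderiv ℝ _ x (ev k)
        rw [h3.fderiv_eq]
      rw [h4]
      refine hpdc (fun i => pd k (h i)) x (fun i => ?_) k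
      have h5 : ContDiffAt ℝ ∞ (fderiv ℝ (h i)) x := (hat i x hx).fderiv_right (m := ∞) (by simp)
      exact (h5.clm_apply contDiffAt_const).differentiableAt (by simp)
    simp only [h2]
    rw [Finset.sum_comm]
    refine Finset.sum_eq_zero fun i _ => ?_
    rw [← Finset.mul_sum, (hh i).2 x hx, mul_zero]
  · have h1 : ∫ x in Ω, ⟪gr (fun x => ∑ i, c i * h i x) x, G x⟫ = ∑ i, c i * ∫ x in Ω, ⟪gr (h i) x, G x⟫ := by
      have h2 : ∫ x in Ω, ⟪gr (fun x => ∑ i, c i * h i x) x, G x⟫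
          = ∫ x in Ω, ∑ i, c i * ⟪gr (h i) x, G x⟫ := by
        refine integral_congr_ae ?_
        filter_upwards [hae] with x hx
        rw [hx, sum_inner]
        refine Finset.sum_congr rfl fun i _ => ?_
        rw [real_inner_smul_left]
      rw [h2, integral_finsetSum _ fun i _ => (lnc_int_inner (hsol i).h.F2 hφ.F2).const_mul (c i)]
      refine Finset.sum_congr rfl fun i _ => ?_
      rw [integral_const_mul]
    have h3 : ∫ x, ψ0 x * κ' x ∂σ = ∑ i, c i * ∫ x, ψ i x * κ' x ∂σ := by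
      have hfr : ∀ᵐ x ∂σ, x ∈ frontier Ω := by
        rw [ae_iff]
        exact hσ.supp
      have h4 : ∫ x, ψ0 x * κ' x ∂σ = ∫ x, ∑ i, c i * (ψ i x * κ' x) ∂σ := by
        refine integral_congr_ae ?_
        filter_upwards [hfr] with x hx
        rw [hψ0 x hx, Finset.sum_mul]
        refine Finset.sum_congr rfl fun i _ => ?_
        ring
      have hI : ∀ i, Integrable (fun x => ψ i x * κ' x) σ := fun i => (hψ i).integrable_mul hφ.t2
      rw [h4, integral_finsetSum _ fun i _ => (hI i).const_mul (c i)]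
      refine Finset.sum_congr rfl fun i _ => ?_
      rw [integral_const_mul]
    rw [h1, h3]
    refine Finset.sum_congr rfl fun i _ => ?_
    rw [(hsol i).weak φ G κ' hφ]

end Pool.Agent.H70.APS
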