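import Mathlib
import Pool.Agent.H70.APS.Targets

/-!
# The profiles of harmonic functions
-/

open MeasureTheory Set Filter Topology Metric
open scoped ENNReal NNReal ContDiff RealInnerProductSpace

namespace Pool.Agent.H70.APS

open Pool.Agent.H94.IC Pool.Agent.H94.AC Pool.Agent.H92.CK Pool.Agent.H65.AP

/-- the gradient of a smooth function is smooth -/
theorem prp_gr_smooth {p : E → ℝ} (h : ContDiff ℝ ∞ p) : ContDiff ℝ ∞ (gr p) := by
  have h1 : ContDiff ℝ ∞ (fderiv ℝ p) := h.fderiv_right (by simp)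
  exact (InnerProductSpace.toDual ℝ E).symm.toContinuousLinearEquiv.contDiff.comp h1

theorem prp_gr_apply (p : E → ℝ) (x : E) (k : Fin 3) : gr p x k = pd k p x := by
  have h0 : ∀ u : E, (⟪u, (ev k : E)⟫ : ℝ) = u k := by
    intro u
    simp [ev, EuclideanSpace.inner_single_right]
  rw [← h0 (gr p x)]
  exact InnerProductSpace.toDual_symm_apply

theorem pf_PRP : T_PRP := by
  intro Ω σ ν p hΩ hσ hp
  have hs : ContDiff ℝ ∞ p := contDiffOn_univ.1 hp.1
  have hg := prp_gr_smooth hs
  have := hσ.fin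
  have hcl : IsCompact (closure Ω) := hΩ.bdd.isCompact_closure
  obtain ⟨C, hC⟩ := hcl.exists_bound_of_continuousOn hg.continuous.continuousOn
  have hfr : ∀ᵐ x ∂σ, x ∈ frontier Ω := by
    rw [ae_iff]
    exact hσ.supp
  have hm : AEStronglyMeasurable (fun x => ⟪gr p x, ν x⟫) σ :=
    hg.continuous.aestronglyMeasurable.inner hσ.meas
  have hbd : ∀ᵐ x ∂σ, ‖(⟪gr p x, ν x⟫ : ℝ)‖ ≤ C := by
    filter_upwards [hfr, hσ.unit] with x hx hu
    refine (norm_inner_le_norm _ _).trans ?_
    rw [hu, mul_one]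
    exact hC x (frontier_subset_closure hx)
  refine ⟨MemLp.of_bound hm C hbd, ?_⟩
  -- a cutoff function
  obtain ⟨χ, hχ1, hχ2, hχs, hχc⟩ : ∃ χ : E → ℝ, (∀ x ∈ closure Ω, χ =ᶠ[𝓝 x] fun _ => 1) ∧ True ∧ ContDiff ℝ ∞ χ ∧
      HasCompactSupport χ := by
    obtain ⟨R, hR⟩ := hcl.isBounded.exists_norm_le
    have hR0 : 0 < max R 0 + 1 := by have := le_max_right R 0; linarith
    let φ : ContDiffBump (0 : E) := ⟨max R 0 + 1, max R 0 + 2, hR0, by linarith⟩
    refine ⟨φ, fun x hx => ?_, trivial, φ.contDiff, φ.hasCompactSupport⟩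
    refine φ.eventuallyEq_one_of_mem_ball ?_
    rw [mem_ball, dist_zero_right]
    have := le_max_left R 0
    have := hR x hx
    show ‖x‖ < max R 0 + 1
    linarith
  have hX : ContDiff ℝ ∞ fun x => χ x • gr p x := hχs.smul hg
  have hgg := hσ.gg (fun x => χ x • gr p x) (hX.of_le (by simp)) hχc.smul_right
  have h1 : ∫ x in Ω, dv (fun x => χ x • gr p x) x = 0 := by
    have h2 : ∀ x ∈ Ω, dv (fun x => χ x • gr p x) x = 0 := by
      intro x hx
      have h3 : (fun x => χ x • gr p x) =ᶠ[𝓝 x] gr p := by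
        filter_upwards [hχ1 x (subset_closure hx)] with y hy
        show χ y • gr p y = gr p y
        rw [hy, one_smul]
      have h4 : ∀ k : Fin 3, (fderiv ℝ (gr p) x (ev k)) k = pd k (pd k p) x := by
        intro k
        have h5 : (fun y => gr p y k) = pd k p := funext fun y => prp_gr_apply p y k
        have h6 : HasFDerivAt (gr p) (fderiv ℝ (gr p) x) x := (hg.differentiable (by simp) x).hasFDerivAt
        have h7 := ((EuclideanSpace.proj k : E →L[ℝ] ℝ).hasFDerivAt (x := gr p x)).comp x h6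
        have h8 : ((EuclideanSpace.proj k : E →L[ℝ] ℝ) ∘ gr p) = pd k p := h5
        rw [h8] at h7
        show _ = fderiv ℝ (pd k p) x (ev k)
        rw [h7.fderiv]
        rfl
      show ∑ k : Fin 3, (fderiv ℝ (fun x => χ x • gr p x) x (ev k)) k = 0
      rw [h3.fderiv_eq]
      simp only [h4]
      exact hp.2 x (mem_univ _)
    exact setIntegral_eq_zero_of_forall_eq_zero h2
  rw [h1] at hgg
  rw [hgg]
  refine integral_congr_ae ?_
  filter_upwards [hfr] with x hx
  have h2 := (hχ1 x (frontier_subset_closure hx)).eq_of_nhds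
  show (⟪gr p x, ν x⟫ : ℝ) = ⟪χ x • gr p x, ν x⟫
  rw [h2, one_smul]

end Pool.Agent.H70.APS
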