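import Mathlib
import Pool.Agent.H70.APS.Targets

/-!
# Rank three, scale invariant: assembly
-/

open MeasureTheory Set Filter Topology Metric
open scoped ENNReal NNReal ContDiff RealInnerProductSpace

namespace Pool.Agent.H70.APS

open Pool.Agent.H94.IC Pool.Agent.H94.AC Pool.Agent.H92.CK Pool.Agent.H65.AP

theorem pf_RKS (hSMS : T_SMS) (hRKT : Pool.Agent.H65.AP.T_RKT) : T_RKS := by
  intro Ω σ ν c d hΩ hσ hc hd
  obtain ⟨ε0, N1, ψ1, hε0, hp1, h1⟩ := hSMS Ω σ ν c d hΩ hσ hc hd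
  have hr : 0 < min (c * ε0) d := lt_min (mul_pos hc hε0) hd
  obtain ⟨N2, ψ2, hp2, h2⟩ := hRKT Ω σ ν (min (c * ε0) d) hΩ hσ hr
  refine ⟨N1 + N2, Fin.append ψ1 ψ2, ?_, ?_⟩
  · intro i
    refine Fin.addCases (fun j => ?_) (fun j => ?_) i
    · rw [Fin.append_left]
      exact hp1 j
    · rw [Fin.append_right]
      exact hp2 j
  intro S h τ hSc hSΩ hS0 hdi hSd hh hsol x hxΩ hxS hxd hcomp
  rintro ⟨v, hv, hvz⟩
  by_cases hcase : diam S < ε0
  · refine h1 S (fun i => h (Fin.castAdd N2 i)) (fun i => τ (Fin.castAdd N2 i)) hSc hSΩ hS0 hdi hcase hSd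
      (fun i => hh _) (fun i => ?_) x hxΩ hxS hxd hcomp ⟨v, hv, fun i => hvz _⟩
    have h3 := hsol (Fin.castAdd N2 i)
    rw [Fin.append_left] at h3
    exact h3
  · rw [not_lt] at hcase
    have hle : min (c * ε0) d ≤ c * diam S :=
      (min_le_left _ _).trans (mul_le_mul_of_nonneg_left hcase hc.le)
    have hne : S.Nonempty := by
      rw [Set.nonempty_iff_ne_empty]
      intro h0
      rw [h0, diam_empty] at hdi
      exact lt_irrefl _ hdi
    refine h2 S (fun i => h (Fin.natAdd N1 i)) (fun i => τ (Fin.natAdd N1 i)) hSc hne hSΩ hS0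
      (fun y hy => (min_le_right _ _).trans (hSd y hy)) (fun i => hh _) (fun i => ?_) x hxΩ (hle.trans_lt hxS)
      ((min_le_right _ _).trans hxd) ?_ ⟨v, hv, fun i => hvz _⟩
    · have h3 := hsol (Fin.natAdd N1 i)
      rw [Fin.append_right] at h3
      exact h3
    · obtain ⟨z, hz1, hz2⟩ := hcomp
      exact ⟨z, connectedComponentIn_mono x (fun y hy => hle.trans_lt hy) hz1, hz2⟩

end Pool.Agent.H70.APS
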