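import Mathlib
import Pool.Agent.H70.APS.Targets

/-!
# Rescaling of distances and components
-/

open MeasureTheory Set Filter Topology Metric
open scoped ENNReal NNReal ContDiff RealInnerProductSpace

namespace Pool.Agent.H70.APS

open Pool.Agent.H94.IC Pool.Agent.H94.AC Pool.Agent.H92.CK Pool.Agent.H65.AP

theorem rsd_inf (S : Set E) (a x : E) (ε : ℝ) (hε : 0 < ε) (hS : S.Nonempty) :
    infDist (ε⁻¹ • (x - a)) (rsS S a ε) = ε⁻¹ * infDist x S := by
  have hd : ∀ y : E, dist (ε⁻¹ • (x - a)) (ε⁻¹ • (y - a)) = ε⁻¹ * dist x y := by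
    intro y
    rw [dist_smul₀, Real.norm_eq_abs, abs_of_pos (inv_pos.2 hε), dist_sub_right]
  have hne : (rsS S a ε).Nonempty := hS.image _
  refine le_antisymm ?_ ?_
  · rw [← div_eq_inv_mul, le_div_iff₀ hε, le_infDist hS]
    intro y hy
    have h1 := infDist_le_dist_of_mem (x := ε⁻¹ • (x - a))
      (show ε⁻¹ • (y - a) ∈ rsS S a ε from ⟨y, hy, rfl⟩)
    rw [hd y, ← div_eq_inv_mul, le_div_iff₀ hε] at h1
    exact h1
  · rw [le_infDist hne]
    rintro _ ⟨y, hy, rfl⟩
    show ε⁻¹ * infDist x S ≤ dist (ε⁻¹ • (x - a)) (ε⁻¹ • (y - a))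
    rw [hd y]
    exact mul_le_mul_of_nonneg_left (infDist_le_dist_of_mem hy) (inv_nonneg.2 hε.le)

theorem pf_RSD : T_RSD := by
  intro S a x ε c hε hS
  refine ⟨rsd_inf S a x ε hε hS, fun z hz => ?_⟩
  have hcont : Continuous fun y : E => ε⁻¹ • (y - a) := by fun_prop
  have hx : x ∈ {y | c * ε < infDist y S} := by
    by_contra h
    rw [connectedComponentIn_eq_empty h] at hz
    exact hz
  have h1 : IsPreconnected ((fun y : E => ε⁻¹ • (y - a)) '' connectedComponentIn {y | c * ε < infDist y S} x) :=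
    isPreconnected_connectedComponentIn.image _ hcont.continuousOn
  have h2 : ((fun y : E => ε⁻¹ • (y - a)) '' connectedComponentIn {y | c * ε < infDist y S} x)
      ⊆ {y | c < infDist y (rsS S a ε)} := by
    rintro _ ⟨y, hy, rfl⟩
    have h3' : y ∈ {y | c * ε < infDist y S} := connectedComponentIn_subset _ _ hy
    have h3 : c * ε < infDist y S := h3'
    show c < infDist (ε⁻¹ • (y - a)) (rsS S a ε)
    rw [rsd_inf S a y ε hε hS, ← div_eq_inv_mul, lt_div_iff₀ hε]
    exact h3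
  have h4 : ε⁻¹ • (x - a) ∈ (fun y : E => ε⁻¹ • (y - a)) '' connectedComponentIn {y | c * ε < infDist y S} x :=
    ⟨x, mem_connectedComponentIn hx, rfl⟩
  exact h1.subset_connectedComponentIn h4 h2 ⟨z, hz, rfl⟩

end Pool.Agent.H70.APS
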