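import Mathlib
import Pool.Agent.H70.APS.Targets
import Pool.Agent.H94.IC.NGP

/-!
# Rank three for small cracks: assembly
-/

open MeasureTheory Set Filter Topology Metric
open scoped ENNReal NNReal ContDiff RealInnerProductSpace

namespace Pool.Agent.H70.APS

open Pool.Agent.H94.IC Pool.Agent.H94.AC Pool.Agent.H92.CK Pool.Agent.H65.AP

/-- gradients of finite sums -/
theorem sms_gr_sum {m : ℕ} (c : Fin m → ℝ) (b : Fin m → E → ℝ) (x : E)
    (hb : ∀ i, DifferentiableAt ℝ (b i) x) :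
    gr (fun y => ∑ i, c i * b i y) x = ∑ i, c i • gr (b i) x := by
  have h1 : HasFDerivAt (fun y => ∑ i, c i * b i y) (∑ i, c i • fderiv ℝ (b i) x) x :=
    HasFDerivAt.fun_sum fun i _ => (hb i).hasFDerivAt.const_mul (c i)
  show (InnerProductSpace.toDual ℝ E).symm (fderiv ℝ (fun y => ∑ i, c i * b i y) x) = _
  rw [h1.fderiv, map_sum]
  refine Finset.sum_congr rfl fun i _ => ?_
  rw [map_smulₛₗ]
  rfl

/-- gradients of rescaled functions -/
theorem sms_gr_comp (p : E → ℝ) (a y : E) (ε : ℝ) (hp : DifferentiableAt ℝ p (ε⁻¹ • (y - a))) :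
    gr (fun z => p (ε⁻¹ • (z - a))) y = ε⁻¹ • gr p (ε⁻¹ • (y - a)) := by
  have h0 : HasFDerivAt (fun z : E => ε⁻¹ • (z - a)) (ε⁻¹ • ContinuousLinearMap.id ℝ E) y :=
    ((hasFDerivAt_id y).sub_const a).const_smul ε⁻¹
  have h1 := hp.hasFDerivAt.comp y h0
  have h2 : (p ∘ fun z : E => ε⁻¹ • (z - a)) = fun z => p (ε⁻¹ • (z - a)) := rfl
  rw [h2] at h1
  show (InnerProductSpace.toDual ℝ E).symm (fderiv ℝ (fun z => p (ε⁻¹ • (z - a))) y) = _
  rw [h1.fderiv]
  have h3 : (fderiv ℝ p (ε⁻¹ • (y - a))).comp (ε⁻¹ • ContinuousLinearMap.id ℝ E)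
      = ε⁻¹ • fderiv ℝ p (ε⁻¹ • (y - a)) := by
    ext w
    simp
  rw [h3, map_smulₛₗ]
  rfl

theorem sms_ball {Ω : Set E} (hΩ : Dom Ω) {x : E} {d : ℝ} (hx : x ∈ Ω) (hd : d ≤ infDist x (frontier Ω)) :
    ball x d ⊆ Ω := by
  intro y hy
  by_contra hyΩ
  have h1 := ngp_infDist_le hΩ hx hyΩ
  rw [mem_ball, dist_comm] at hy
  linarith

theorem pf_SMS (hHPF : T_HPF) (hHPA : T_HPA) (hBKD : T_BKD) (hKAP : T_KAP) (hPRS : T_PRS) (hLNC : T_LNC)
    (hPRP : T_PRP) (hSMU : T_SMU) (hRSC : T_RSC) (hRSD : T_RSD) (hNEA : T_NEA) (hFAR : T_FAR) : T_SMS := by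
  intro Ω σ ν c d hΩ hσ hc hd
  obtain ⟨M, hM1, hM⟩ := hFAR
  obtain ⟨κ, hκ⟩ := hKAP (M + 3) (by linarith)
  obtain ⟨D, L, hL, hNE⟩ := hNEA c M κ hc hM1 hκ
  obtain ⟨hA1, hA2, hA3, hA4⟩ := hHPA
  obtain ⟨m, b, hb, hspan⟩ := hHPF (max D 1)
  have hprof : ∀ i, IsProfile σ (fun x => ⟪gr (b i) x, ν x⟫) := fun i =>
    hPRP Ω σ ν (b i) hΩ hσ (hb i).harm
  have hbd : ∀ i x, DifferentiableAt ℝ (b i) x := fun i x =>
    ((hb i).harm.1.contDiffAt univ_mem).differentiableAt (by simp)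
  set B : ℝ := L + 2 * (M + 3) + M + 5 with hBdef
  have hB : 0 < B := by rw [hBdef]; linarith
  refine ⟨d / B, m, fun i x => ⟪gr (b i) x, ν x⟫, by positivity, hprof, ?_⟩
  intro S h τ hSc hSΩ hS0 hdi hdi' hSd hh hsol x hxΩ hxS hxd hcomp
  rintro ⟨v, hv, hvz⟩
  set ε : ℝ := diam S with hεdef
  have hεB : ε * B < d := by rwa [lt_div_iff₀ hB] at hdi'
  obtain ⟨a, ha⟩ : S.Nonempty := by
    rw [Set.nonempty_iff_ne_empty]
    intro h0
    rw [hεdef, h0, diam_empty] at hdi
    exact lt_irrefl _ hdi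
  have haΩ : a ∈ Ω := hSΩ ha
  have hSa : S ⊆ closedBall a ε := fun y hy => by
    rw [mem_closedBall]
    exact dist_le_diam_of_mem hSc.isBounded hy ha
  have hba : ball a d ⊆ Ω := sms_ball hΩ haΩ (hSd a ha)
  have hbx : ball x d ⊆ Ω := sms_ball hΩ hxΩ hxd
  have hlt : ∀ t : ℝ, t ≤ B → t * ε < d := fun t ht => by nlinarith
  have hfar : ∀ y : E, dist y x < infDist x S → y ∉ S := fun y hy hyS => by
    have := infDist_le_dist_of_mem (x := x) hyS
    rw [dist_comm] at this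
    linarith
  by_cases hcase : M * ε < infDist x S
  · -- far from the crack
    have hk : ∀ k : Fin 3, ∃ cc : Fin m → ℝ, ∀ y : E, y k = ∑ i, cc i * b i y := fun k =>
      hspan _ (hA3 1 (max D 1) _ (le_max_right _ _) (hA4 k))
    choose cc hcc using hk
    have hlin : ∀ k : Fin 3, _ := fun k => hLNC Ω S σ ν m (fun i x => ⟪gr (b i) x, ν x⟫) h τ (cc k)
      (fun y => ν y k) hΩ hσ hSc hSΩ hS0 (fun i => (hprof i).l2) hh hsol (by
        intro y _
        have h1 : gr (fun z : E => z k) y = ∑ i, cc k i • gr (b i) y := by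
          have h2 : (fun z : E => z k) = fun z => ∑ i, cc k i * b i z := funext fun z => hcc k z
          rw [h2]
          exact sms_gr_sum (cc k) b y fun i => hbd i y
        have h3 : gr (fun z : E => z k) y = ev k := by
          have h4 : HasFDerivAt (fun z : E => z k) (EuclideanSpace.proj k : E →L[ℝ] ℝ) y :=
            (EuclideanSpace.proj k : E →L[ℝ] ℝ).hasFDerivAt
          show (InnerProductSpace.toDual ℝ E).symm (fderiv ℝ (fun z : E => z k) y) = _
          rw [h4.fderiv, LinearIsometryEquiv.symm_apply_eq]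
          ext w
          simp [ev, EuclideanSpace.inner_single_left]
        have h5 : ν y k = ⟪(ev k : E), ν y⟫ := by
          simp [ev, EuclideanSpace.inner_single_left]
        rw [h5, ← h3, h1, sum_inner]
        refine Finset.sum_congr rfl fun i _ => ?_
        rw [real_inner_smul_left])
    obtain ⟨k, hk⟩ := hM Ω S σ ν a x v ε (fun k z => ∑ i, cc k i * h i z) (fun k z => ∑ i, cc k i * τ i z) hΩ hσ
      hSc hSa hdi (fun y hy => hba (by
        rw [mem_closedBall] at hy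
        rw [mem_ball]
        exact hy.trans_lt (hlt 4 (by rw [hBdef]; linarith)))) hS0
      (fun y hy => by
        rw [mem_ball] at hy
        refine ⟨hbx ?_, hfar y (hy.trans hcase)⟩
        rw [mem_ball]
        exact hy.trans (hlt M (by rw [hBdef]; linarith)))
      (fun k => (hlin k).1) (fun k => (hlin k).2.1) hv
    have hxS' : x ∉ S := hfar x (by rw [dist_self]; nlinarith)
    rw [(hlin k).2.2 x ⟨hxΩ, hxS'⟩, sum_inner] at hk
    refine hk (Finset.sum_eq_zero fun i _ => ?_)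
    rw [real_inner_smul_left, hvz i, mul_zero]
  · -- near the crack
    rw [not_lt] at hcase
    set δ : ℝ := min c 1 / 16 with hδdef
    have hδ : 0 < δ := by
      have := lt_min hc one_pos
      positivity
    have hδc : δ ≤ c / 16 := by
      have := min_le_left c 1
      linarith
    have hδ1 : δ ≤ 1 / 16 := by
      have := min_le_right c 1
      linarith
    have hρ : 0 < δ * ε := mul_pos hδ hdi
    have hcl : closedBall x (δ * ε) ⊆ Ω \ S := by
      intro y hy
      rw [mem_closedBall] at hy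
      refine ⟨hbx ?_, hfar y ?_⟩
      · rw [mem_ball]
        exact hy.trans_lt (hlt δ (by rw [hBdef]; linarith))
      · refine hy.trans_lt (lt_of_le_of_lt ?_ hxS)
        nlinarith
    obtain ⟨P, hPm, hPn, hPd, hPc, hPs⟩ := hPRS Ω S σ ν (δ * ε) x v hΩ hσ hSc hSΩ hS0 hρ hcl
    have hax : dist x a ≤ (M + 1) * ε := by
      obtain ⟨p, hp, hpd⟩ := hSc.exists_infDist_eq_dist ⟨a, ha⟩ x
      have h1 := hSa hp
      rw [mem_closedBall] at h1
      have h2 := dist_triangle x p a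
      linarith
    have hR : 0 < M + 3 := by linarith
    have hmom : ∀ (a' b' : E) (c' : ℂ) (k : ℕ) (w : E), ON a' b' → k ≤ D →
        ∫ y in Ω, ⟪P y, MF (fun z => κ (ε⁻¹ • (z - a))) (fun z => bk a' b' c' k (ε⁻¹ • (z - a))) w y⟫ = 0 := by
      intro a' b' c' k w hON hk
      have hbk := hBKD a' b' c' k hON
      have hkD : k ≤ max D 1 := hk.trans (le_max_left _ _)
      refine hSMU Ω S σ ν (δ * ε) (M + 3) ε a x v P (max D 1) m b h τ κ hΩ hσ hSc hSΩ hS0 hρ hcl hdi hR hκ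
        ?_ ?_ ?_ hb hspan hh hsol hvz hPm hPd hPs (fun z => bk a' b' c' k (ε⁻¹ • (z - a))) w
        (hA1 k (bk a' b' c' k) a ε hbk.1 hdi).harm ?_
      · intro y hy
        have h1 := hSa hy
        rw [mem_closedBall] at h1
        rw [mem_ball]
        nlinarith
      · intro y hy
        rw [mem_closedBall] at hy
        rw [mem_ball]
        have h1 := dist_triangle y x a
        nlinarith
      · intro y hy
        rw [mem_closedBall] at hy
        refine hba ?_
        rw [mem_ball]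
        exact hy.trans_lt (hlt (2 * (M + 3)) (by rw [hBdef]; linarith))
      · have h1 : (fun y => ⟪gr (fun z => bk a' b' c' k (ε⁻¹ • (z - a))) y, w⟫)
            = fun y => ε⁻¹ * ⟪gr (bk a' b' c' k) (ε⁻¹ • (y - a)), w⟫ := by
          funext y
          rw [sms_gr_comp _ a y ε ((hbk.1.harm.1.contDiffAt univ_mem).differentiableAt (by simp)),
            real_inner_smul_left]
        rw [h1]
        exact hA3 k (max D 1) _ hkD (hA2 k _ ε⁻¹ (hA1 k (fun y => ⟪gr (bk a' b' c' k) y, w⟫) a ε (hbk.2 w) hdi))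
    have hBlow := hRSC Ω S a x v ε δ L P D κ hΩ.op hdi hδ hκ.sm hPm hPn hPd hPc (fun y hy => hba (by
      rw [mem_ball] at hy ⊢
      exact hy.trans (hlt L (by rw [hBdef]; linarith)))) hmom
    obtain ⟨hsc, hco⟩ := hRSD S a x ε c hdi ⟨a, ha⟩
    refine hNE (rsS S a ε) (ε⁻¹ • (x - a)) v (rs Ω a ε P) ?_ ?_ ?_ ?_ ?_ ?_ hv hBlow
    · exact hSc.image (by fun_prop)
    · exact ⟨_, mem_image_of_mem _ ha⟩
    · rintro _ ⟨y, hy, rfl⟩
      have h1 := hSa hy
      rw [mem_closedBall, dist_eq_norm] at h1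
      rw [mem_closedBall, dist_zero_right, norm_smul, norm_inv, Real.norm_eq_abs, abs_of_pos hdi]
      rw [inv_mul_le_iff₀ hdi, mul_one]
      exact h1
    · rw [hsc, ← div_eq_inv_mul, lt_div_iff₀ hdi]
      exact hxS
    · rw [hsc, ← div_eq_inv_mul, div_le_iff₀ hdi]
      exact hcase
    · obtain ⟨z, hz1, hz2⟩ := hcomp
      refine ⟨ε⁻¹ • (z - a), hco z hz1, ?_⟩
      have hzΩ : z ∉ Ω := fun h1 => hz2 (subset_closure h1)
      have h1 : d ≤ ‖z - a‖ := by
        by_contra h2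
        rw [not_le, ← dist_eq_norm] at h2
        exact hzΩ (hba h2)
      show L < ‖ε⁻¹ • (z - a)‖
      rw [norm_smul, norm_inv, Real.norm_eq_abs, abs_of_pos hdi, ← div_eq_inv_mul, lt_div_iff₀ hdi]
      exact (hlt L (by rw [hBdef]; linarith)).trans_le h1

end Pool.Agent.H70.APS
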