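import Mathlib
import Pool.Agent.H70.APS.Targets

/-!
# There are no blow ups with many vanishing moments
-/

open MeasureTheory Set Filter Topology Metric
open scoped ENNReal NNReal ContDiff RealInnerProductSpace

namespace Pool.Agent.H70.APS

open Pool.Agent.H94.IC Pool.Agent.H94.AC Pool.Agent.H92.CK Pool.Agent.H65.AP

/-- a square integrable field with vanishing integrals against test functions in an open set vanishes there -/
theorem nea_zero {Q : E → E} (hQ : MemLp Q 2 volume) {O : Set E} (hO : IsOpen O)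
    (h : ∀ θ : E → ℝ, ContDiff ℝ ∞ θ → HasCompactSupport θ → tsupport θ ⊆ O → ∀ w : E, ∫ y, θ y * ⟪Q y, w⟫ = 0) :
    ∀ᵐ y ∂(volume : Measure E), y ∈ O → Q y = 0 := by
  have hloc : LocallyIntegrable Q volume := hQ.locallyIntegrable (by norm_num)
  refine hO.ae_eq_zero_of_integral_contDiff_smul_eq_zero (hloc.locallyIntegrableOn O) ?_
  intro g hg hgc hgO
  have hint : Integrable (fun y => g y • Q y) volume :=
    hloc.integrable_smul_left_of_hasCompactSupport hg.continuous hgc
  refine ext_inner_right ℝ fun w => ?_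
  rw [inner_zero_left, real_inner_comm, ← integral_inner hint w, ← h g hg hgc hgO w]
  refine integral_congr_ae (Eventually.of_forall fun y => ?_)
  show ⟪w, g y • Q y⟫ = g y * ⟪Q y, w⟫
  rw [real_inner_smul_right, real_inner_comm]

theorem pf_NEA (hLMB : T_LMB) (hFIN : T_FIN) (hWCH : Pool.Agent.H65.AP.T_WCH)
    (hUCP : Pool.Agent.H65.AP.T_UCP) : T_NEA := by
  intro c M κ hc hM hκ
  set R : ℝ := M + 3 with hRdef
  set R4 : ℝ := 8 * R + 1 with hR4def
  set δ : ℝ := min c 1 / 16 with hδdef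
  have hR : 4 ≤ R := by rw [hRdef]; linarith
  have hδ : 0 < δ := by
    have := lt_min hc one_pos
    positivity
  have hδc : 2 * δ ≤ c / 8 := by
    have := min_le_left c 1
    linarith
  have hδ1 : δ ≤ 1 / 16 := by
    have := min_le_right c 1
    linarith
  by_contra hcon
  push Not at hcon
  obtain ⟨WW, hWW1, hWW2⟩ := hWCH (ball 0 R4) c isBounded_ball hc
  have hseq : ∀ n : ℕ, ∃ (K : Set E) (y v : E) (Q : E → E) (W : Set E), W ∈ WW ∧ ball y (c / 8) ⊆ W ∧
      (∀ z ∈ W, c / 2 ≤ infDist z K) ∧ K ⊆ closedBall 0 1 ∧ ‖y‖ ≤ M + 1 ∧ ‖v‖ = 1 ∧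
      Blow n κ K δ ((n : ℝ) + R4 + 1) y v Q := by
    intro n
    obtain ⟨K, y, v, Q, hKc, hKn, hK1, hcK, hKM, hco, hv, hB⟩ := hcon n ((n : ℝ) + R4 + 1) (by positivity)
    have hyn : ‖y‖ ≤ M + 1 := by
      obtain ⟨p, hp, hpd⟩ := hKc.exists_infDist_eq_dist hKn y
      have h1 := hK1 hp
      rw [mem_closedBall, dist_zero_right] at h1
      have h2 := norm_sub_norm_le y p
      rw [← dist_eq_norm] at h2
      linarith
    obtain ⟨z, hz1, hz2⟩ := hco
    obtain ⟨W, hW, hWb, hWd⟩ := hWW2 K y hKn (by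
      rw [mem_ball, dist_zero_right, hR4def, hRdef]
      linarith) hcK ⟨z, hz1, fun hz3 => by
        have h3 := closure_ball_subset_closedBall hz3
        rw [mem_closedBall, dist_zero_right] at h3
        have h4 : (n : ℝ) + R4 + 1 < ‖z‖ := hz2
        have h5 : (0 : ℝ) ≤ n := n.cast_nonneg
        linarith⟩
    exact ⟨K, y, v, Q, W, hW, hWb, hWd, hK1, hyn, hv, hB⟩
  choose K y v Q W hW hWb hWd hK hy hv hB using hseq
  let U : Ultrafilter ℕ := hyperfilter ℕ
  have hU : (U : Filter ℕ) ≤ atTop := Nat.hyperfilter_le_atTop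
  obtain ⟨W0, hW0, hW0'⟩ : ∃ W0 ∈ (WW : Set (Set E)), {n | W n = W0} ∈ U := by
    rw [← Ultrafilter.finite_biUnion_mem_iff WW.finite_toSet]
    refine Filter.mem_of_superset Filter.univ_mem fun n _ => ?_
    rw [mem_iUnion₂]
    exact ⟨W n, hW n, rfl⟩
  have hW0'' : ∀ᶠ n in (U : Filter ℕ), W n = W0 := hW0'
  obtain ⟨y0, hy0, hy0'⟩ := (isCompact_closedBall (0 : E) (M + 1)).ultrafilter_le_nhds (U.map y) (by
    have h1 : Tendsto y U (𝓟 (closedBall 0 (M + 1))) := tendsto_principal.2 (Eventually.of_forall fun n => by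
      rw [mem_closedBall, dist_zero_right]
      exact hy n)
    exact h1)
  obtain ⟨v0, hv0, hv0'⟩ := (isCompact_sphere (0 : E) 1).ultrafilter_le_nhds (U.map v) (by
    have h1 : Tendsto v U (𝓟 (sphere 0 1)) := tendsto_principal.2 (Eventually.of_forall fun n => by
      rw [mem_sphere, dist_zero_right]
      exact hv n)
    exact h1)
  have hyt : Tendsto y U (𝓝 y0) := hy0'
  have hvt : Tendsto v U (𝓝 v0) := hv0'
  rw [mem_closedBall, dist_zero_right] at hy0
  rw [mem_sphere, dist_zero_right] at hv0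
  have hLt : Tendsto (fun n : ℕ => (n : ℝ) + R4 + 1) U atTop := by
    have h1 : Tendsto (fun n : ℕ => (n : ℝ)) U atTop := tendsto_natCast_atTop_atTop.mono_left hU
    exact tendsto_atTop_add_const_right _ _ (tendsto_atTop_add_const_right _ _ h1)
  obtain ⟨Q0, hQ0⟩ := hLMB U (fun n => n) (fun n => (n : ℝ) + R4 + 1) κ R δ K y v Q y0 v0 W0 hκ
    (by linarith) hδ (tendsto_id.mono_left hU) hLt hK hv hB hyt hvt (by
      filter_upwards [hW0''] with n hn
      rw [Set.disjoint_left]
      intro z hz hzK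
      rw [← hn] at hz
      have h1 := hWd n z hz
      rw [infDist_zero_of_mem hzK] at h1
      linarith)
  have hbR : ball y0 δ ⊆ ball 0 R := by
    intro z hz
    rw [mem_ball] at hz
    rw [mem_ball, dist_zero_right]
    have h1 := norm_sub_norm_le z y0
    rw [← dist_eq_norm] at h1
    linarith
  have hfar := hFIN κ R δ W0 y0 v0 Q0 (by linarith) hκ hδ hbR hQ0
  have hO : IsOpen {z : E | 8 * R < ‖z‖} := isOpen_lt continuous_const continuous_norm
  have hz0 := nea_zero hQ0.mem hO fun θ h1 h2 h3 w => hfar θ h1 h2 (fun z hz => h3 hz) w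
  have hz1 : ∀ᵐ z ∂(volume : Measure E), z ∉ ball (0 : E) R4 → Q0 z = 0 := by
    filter_upwards [hz0] with z hz hz'
    rw [mem_ball, dist_zero_right, not_lt] at hz'
    exact hz (by show 8 * R < ‖z‖; linarith)
  have hset : ∀ G : E → E, ∫ z in ball (0 : E) R4, ⟪Q0 z, G z⟫ = ∫ z, ⟪Q0 z, G z⟫ := by
    intro G
    refine setIntegral_eq_integral_of_ae_compl_eq_zero ?_
    filter_upwards [hz1] with z hz hz'
    rw [hz hz', inner_zero_left]
  have hfin := hUCP (ball 0 R4) W0 y0 v0 δ Q0 isOpen_ball isBounded_ball (hWW1 W0 hW0).1 (hWW1 W0 hW0).2.1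
    (hWW1 W0 hW0).2.2 hδ ?_ ?_ (hQ0.mem.restrict _) ?_ ?_
  · rw [hfin, norm_zero] at hv0
    exact zero_ne_one hv0
  · intro z hz
    rw [mem_ball] at hz
    have h1 : ∀ᶠ n in (U : Filter ℕ), dist (y n) y0 < 2 * δ - dist z y0 :=
      (tendsto_iff_dist_tendsto_zero.1 hyt).eventually_lt_const (by linarith)
    obtain ⟨n, hn1, hn2⟩ := (h1.and hW0'').exists
    rw [← hn2]
    refine hWb n ?_
    rw [mem_ball]
    have h2 := dist_triangle_right z (y n) y0
    linarith
  · intro z hz
    rw [mem_ball] at hz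
    rw [mem_ball, dist_zero_right]
    have h1 := norm_sub_norm_le z y0
    rw [← dist_eq_norm] at h1
    rw [hR4def, hRdef]
    linarith
  · intro φ h1 h2
    rw [hset]
    exact hQ0.div φ h1 h2
  · intro B h1 h2 h3
    rw [hset]
    exact hQ0.crl B h1 h2 (h3.trans subset_union_left)

end Pool.Agent.H70.APS
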